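
import Pool.Agent.H737R3.Points

set_option autoImplicit false


namespace Pool.Agent.Helper478_Bridge.HarbourneHuneke

open Pool.Agent.H737R3

/-- Over an algebraically closed field of char 0, for n≥1, any nonempty finite set W of points in P^n and r≥1, every nonzero degree-d form vanishing to order rn at all points of W has d ≥ r·α(W) + r(n−1). -/
theorem result :
    ∀ (k : Type) [Field k] [IsAlgClosed k] [CharZero k] (n : ℕ), 1 ≤ n →
    ∀ (W : Finset (Projectivization k (Fin (n+1) → k))), W.Nonempty →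
    ∀ (r : ℕ), 1 ≤ r →
    ∀ (d : ℕ) (f : MvPolynomial (Fin (n+1)) k), f ≠ 0 → f.IsHomogeneous d →
      (∀ P ∈ W, f ∈ (Ideal.span {g : MvPolynomial (Fin (n+1)) k |
          g.IsHomogeneous 1 ∧ MvPolynomial.eval P.rep g = 0}) ^ (r * n)) →
      ∃ (e : ℕ) (g : MvPolynomial (Fin (n+1)) k), g ≠ 0 ∧ g.IsHomogeneous e ∧
        (∀ P ∈ W, g ∈ Ideal.span {h : MvPolynomial (Fin (n+1)) k |
          h.IsHomogeneous 1 ∧ MvPolynomial.eval P.rep h = 0}) ∧
        r * e + r * (n - 1) ≤ d := by
  intro k _ _ _ n hn W hW r hr d f hf0 hf hfW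
  have h1 : f ∈ wIdeal W (fun p => r * n * (fun _ : PP k n => 1) p) := by
    rw [mem_wIdeal]
    intro p hp
    rw [ptIdeal_eq]
    have := hfW p hp
    simpa only [mul_one, linI] using this
  have h2 := alpha_wIdeal_le h1 hf0
  rw [hf.totalDegree hf0] at h2
  obtain ⟨q, hq⟩ := hW
  have h3 := demailly_w hn W (fun _ => 1) ⟨q, hq, le_rfl⟩ 1 (r * n) le_rfl
  obtain ⟨g, hg, hg0, hgh⟩ := alpha_wIdeal_spec hn W (fun p => 1 * (fun _ : PP k n => 1) p)
  refine ⟨_, g, hg0, hgh, ?_, ?_⟩
  · intro p hp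
    rw [mem_wIdeal] at hg
    have := hg p hp
    rw [ptIdeal_eq] at this
    simpa only [mul_one, pow_one, linI] using this
  · set a := alpha (wIdeal W (fun p => 1 * (fun _ : PP k n => 1) p)) with ha
    set b := alpha (wIdeal W (fun p => r * n * (fun _ : PP k n => 1) p)) with hb
    have h4 : r * n * (a + n - 1) ≤ d * n := by
      calc r * n * (a + n - 1) ≤ b * (1 + n - 1) := h3
        _ = b * n := by rw [Nat.add_sub_cancel_left]
        _ ≤ d * n := Nat.mul_le_mul_right _ h2
    have h5 : r * (a + (n - 1)) ≤ d := by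
      have h6 : a + n - 1 = a + (n - 1) := by omega
      rw [h6] at h4
      have h7 : (r * (a + (n - 1))) * n ≤ d * n := by
        calc (r * (a + (n - 1))) * n = r * n * (a + (n - 1)) := by ring
          _ ≤ d * n := h4
      exact Nat.le_of_mul_le_mul_right h7 hn
    rw [← Nat.mul_add]
    exact h5

end Pool.Agent.Helper478_Bridge.HarbourneHuneke
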